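import Pool.Agent.U310.TQ.Stm

/-!
# Project TQ, package CNT: law of large numbers for the number of chosen integers
-/

set_option autoImplicit false

open MeasureTheory ProbabilityTheory Filter
open scoped Topology

namespace Pool.Agent.U375.TQ

open Pool.Agent.U310.TQ Pool.Agent.U310.Idx

lemma sum_shift (f : ℕ → ℝ) (n : ℕ) :
    ∑ T ∈ Finset.range n, f (T + 1) = ∑ m ∈ Finset.Icc 1 n, f m := by
  induction n with
  | zero => simp
  | succ n ih => rw [Finset.sum_range_succ, Finset.sum_Icc_succ_top (by omega), ih]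

lemma card_St_sum {Ω : Type} (A : ℕ → Set Ω) (n : ℕ) (ω : Ω) :
    ((St A n ω).card : ℝ) =
      ∑ T ∈ Finset.range n, (A (T + 1)).indicator (fun _ => (1 : ℝ)) ω := by
  classical
  rw [sum_shift (fun m => (A m).indicator (fun _ => (1 : ℝ)) ω)]
  unfold St
  rw [Finset.card_filter, Nat.cast_sum]
  refine Finset.sum_congr rfl fun m _ => ?_
  by_cases h : ω ∈ A m
  · rw [if_pos h, Set.indicator_of_mem h, Nat.cast_one]
  · rw [if_neg h, Set.indicator_of_notMem h, Nat.cast_zero]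

lemma ev_ineq : ∀ᶠ n : ℕ in atTop,
    2 * √(((n : ℝ) + 1) * Real.log n) ≤ √(n : ℝ) * Real.log n ^ 2 := by
  have h1 : ∀ᶠ n : ℕ in atTop, 2 ≤ Real.log n :=
    (Real.tendsto_log_atTop.comp tendsto_natCast_atTop_atTop).eventually_ge_atTop 2
  filter_upwards [h1, eventually_ge_atTop 1] with n hL hn
  have hn1 : (1 : ℝ) ≤ n := by exact_mod_cast hn
  set L := Real.log n with hLd
  have e1 : √(n : ℝ) * L ^ 2 = √((n : ℝ) * L ^ 4) := by
    rw [Real.sqrt_mul (by positivity), show L ^ 4 = (L ^ 2) ^ 2 by ring,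
      Real.sqrt_sq (by positivity)]
  have e2 : 2 * √(((n : ℝ) + 1) * L) = √(4 * (((n : ℝ) + 1) * L)) := by
    rw [Real.sqrt_mul (by norm_num : (0 : ℝ) ≤ 4), show (4 : ℝ) = 2 ^ 2 by norm_num,
      Real.sqrt_sq (by norm_num)]
  rw [e1, e2]
  apply Real.sqrt_le_sqrt
  have h3 : 8 ≤ L ^ 3 := by nlinarith [mul_nonneg (sub_nonneg.2 hL) (sub_nonneg.2 hL)]
  have hL0 : 0 ≤ L := by linarith
  calc 4 * (((n : ℝ) + 1) * L) ≤ 4 * ((n + n) * L) := by
        have : ((n : ℝ) + 1) * L ≤ (n + n) * L := mul_le_mul_of_nonneg_right (by linarith) hL0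
        linarith
    _ = (n * L) * 8 := by ring
    _ ≤ (n * L) * L ^ 3 := mul_le_mul_of_nonneg_left h3 (by positivity)
    _ = n * L ^ 4 := by ring

theorem t_CNT : S_CNT := by
  intro hF Ω mΩ μ _ A hA
  obtain ⟨ℱ, hℱ, hd⟩ := hF μ A hA.meas hA.ind
  have h1 := PM (μ := μ) (ℱ := ℱ) (A := A) hℱ (fun _ _ _ => 1) (by simp) (fun n => n)
    (fun n => (n : ℝ)) (fun n => Nat.cast_nonneg n)
  have h2 : ∀ᵐ ω ∂μ, ∀ T, Pool.Agent.R528.RM.dens μ ℱ A T ω = μ.real (A (T + 1)) :=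
    ae_all_iff.2 hd
  filter_upwards [h1, h2] with ω hω hω2
  filter_upwards [hω, ev_ineq] with n hn hn2
  have hV : Vg A (fun _ _ => 1) n ω ≤ n := by
    unfold Vg
    simp
  have h3 := hn hV
  have h4 : ∑ T ∈ Finset.range n, (1 : ℝ) *
      ((A (T + 1)).indicator (fun _ => (1 : ℝ)) ω - Pool.Agent.R528.RM.dens μ ℱ A T ω) =
      ((St A n ω).card : ℝ) - Rs (fun m => μ.real (A m)) n := by
    rw [card_St_sum]
    unfold Rs
    rw [← sum_shift (fun m => μ.real (A m)), ← Finset.sum_sub_distrib]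
    refine Finset.sum_congr rfl fun T _ => ?_
    rw [one_mul, hω2 T]
  rw [h4] at h3
  exact h3.trans hn2

end Pool.Agent.U375.TQ
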